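import Pool.Agent.Helper58.HL.LOW

namespace Pool.Agent.Helper58.HL

open Finset Polynomial
open Pool.Agent.Helper7.HL

theorem sum_shift_le (f : ℕ → ℕ) (s : Finset ℕ) (hs : ∀ i, f i ≠ 0 → i ∈ s) (c N : ℕ) :
    ∑ m ∈ range (N + 1), (if c ≤ m then f (m - c) else 0) ≤ ∑ i ∈ s, f i := by
  rw [← sum_filter]
  have h1 : ∑ m ∈ (range (N + 1)).filter (fun m => c ≤ m), f (m - c) =
      ∑ i ∈ ((range (N + 1)).filter (fun m => c ≤ m)).image (fun m => m - c), f i := by
    rw [sum_image]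
    intro x hx y hy hxy
    have hx' := (mem_filter.mp (Finset.mem_coe.mp hx)).2
    have hy' := (mem_filter.mp (Finset.mem_coe.mp hy)).2
    have hxy' : x - c = y - c := hxy
    omega
  rw [h1]
  apply sum_le_sum_of_ne_zero
  intro i _ hi
  exact hs i hi

/-- partial sums of the coefficients are bounded -/
theorem partial_sum_le (g : R0) : ∃ Q : ℕ, ∀ k N : ℕ,
    |∑ m ∈ range (N + 1), (g.eval ((X : Polynomial ℤ) ^ k)).coeff m| ≤ Q := by
  refine ⟨∑ j ∈ range (g.natDegree + 1), ∑ i ∈ (g.coeff j).support,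
    ((g.coeff j).coeff i).natAbs, fun k N => ?_⟩
  have h1 : ∑ m ∈ range (N + 1), (g.eval ((X : Polynomial ℤ) ^ k)).coeff m =
      ∑ j ∈ range (g.natDegree + 1), ∑ m ∈ range (N + 1),
        if k * j ≤ m then (g.coeff j).coeff (m - k * j) else 0 := by
    rw [sum_comm]
    apply sum_congr rfl
    intro m _
    exact coeff_eval g k (g.natDegree + 1) (Nat.lt_succ_self _) m
  rw [h1]
  push_cast
  apply (abs_sum_le_sum_abs _ _).trans
  apply sum_le_sum
  intro j _
  apply (abs_sum_le_sum_abs _ _).trans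
  have h2 := sum_shift_le (fun i => ((g.coeff j).coeff i).natAbs) (g.coeff j).support
    (fun i hi => by
      rw [mem_support_iff]
      intro h
      apply hi
      simp [h]) (k * j) N
  have h3 : ((∑ m ∈ range (N + 1), (if k * j ≤ m then ((g.coeff j).coeff (m - k * j)).natAbs
      else 0) : ℕ) : ℤ) ≤ ((∑ i ∈ (g.coeff j).support, ((g.coeff j).coeff i).natAbs : ℕ) : ℤ) :=
    Nat.cast_le.mpr h2
  push_cast at h3
  refine le_trans (le_of_eq ?_) h3
  apply sum_congr rfl
  intro m _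
  split_ifs
  · rfl
  · simp

theorem err_aux (B : Polynomial ℤ) (Q : ℕ)
    (hB : ∀ N : ℕ, |∑ m ∈ range (N + 1), B.coeff m| ≤ Q) : ∀ (r : ℕ) (E : Polynomial ℤ),
    (1 - X) ^ (r + 1) * E = B → ∀ N : ℕ, |E.coeff N| ≤ Q * ((N : ℤ) + 1) ^ r := by
  intro r
  induction r with
  | zero =>
    intro E hE N
    rw [zero_add, pow_one] at hE
    rw [coeff_eq_sum B E hE N, pow_zero, mul_one]
    exact hB N
  | succ r ih =>
    intro E hE N
    have h1 : (1 - X) ^ (r + 1) * ((1 - X) * E) = B := by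
      rw [← hE, pow_succ (1 - X : Polynomial ℤ) (r + 1)]
      ring
    have h2 : ∀ m ∈ range (N + 1), |((1 - X) * E).coeff m| ≤ (Q : ℤ) * ((N : ℤ) + 1) ^ r := by
      intro m hm
      apply (ih _ h1 m).trans
      apply mul_le_mul_of_nonneg_left _ (Int.natCast_nonneg Q)
      apply pow_le_pow_left₀ (by positivity)
      have h3 : m ≤ N := by have := mem_range.mp hm; omega
      have h4 : (m : ℤ) ≤ (N : ℤ) := Nat.cast_le.mpr h3
      linarith
    have h5 : E.coeff N = ∑ m ∈ range (N + 1), ((1 - X) * E).coeff m :=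
      coeff_eq_sum ((1 - X) * E) E (Eq.refl _) N
    rw [h5]
    refine le_trans (abs_sum_le_sum_abs _ _) (le_trans (sum_le_sum h2) ?_)
    rw [sum_const, card_range, nsmul_eq_mul]
    apply le_of_eq
    push_cast
    ring

theorem st_ERR : ST_ERR := by
  intro n g hn
  obtain ⟨Q, hQ⟩ := partial_sum_le g
  refine ⟨Q, fun k N E hE => ?_⟩
  obtain ⟨r, rfl⟩ : ∃ r, n = r + 2 := ⟨n - 2, by omega⟩
  have e1 : r + 2 - 1 = r + 1 := by omega
  have e2 : r + 2 - 2 = r := by omega
  rw [e1] at hE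
  have h1 := err_aux _ Q (hQ k) r E hE N
  apply h1.trans
  rw [e2]
  apply mul_le_mul_of_nonneg_left _ (by positivity)
  apply pow_le_pow_left₀ (by positivity)
  push_cast
  linarith

end Pool.Agent.Helper58.HL
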