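import Pool.Agent.Helper58.HL.LOW

namespace Pool.Agent.Helper58.HL

open Finset Polynomial
open Pool.Agent.Helper7.HL

/-- the remainder after the value at `q = 1` is divisible by `1 - q` -/
theorem exists_rem (A B : R0)
    (h : A.map (evalRingHom (1 : ℤ)) = B.map (evalRingHom (1 : ℤ))) :
    ∃ g : R0, A = B + C (1 - X) * g := by
  have h1 : (C (1 - X : Polynomial ℤ)) ∣ (A - B) := by
    rw [C_dvd_iff_dvd_coeff]
    intro i
    have h2 : ((A - B).coeff i).eval 1 = 0 := by
      have h3 := congrArg (fun p => coeff p i) h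
      simp only [coeff_map, coe_evalRingHom] at h3
      rw [coeff_sub, eval_sub, h3, sub_self]
    have h4 : (X - C 1 : Polynomial ℤ) ∣ (A - B).coeff i := dvd_iff_isRoot.mpr h2
    have h5 : (1 - X : Polynomial ℤ) = -(X - C 1) := by simp
    rw [h5]
    exact (neg_dvd).mpr h4
  obtain ⟨g, hg⟩ := h1
  exact ⟨g, by rw [← hg]; ring⟩

theorem one_sub_pow_eq (m : ℕ) : (1 - X ^ m : Polynomial ℤ) = (1 - X) * qi m := by
  unfold qi
  have := mul_geom_sum (X : Polynomial ℤ) m
  have h2 : (1 - X : Polynomial ℤ) * ∑ i ∈ range m, X ^ i =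
      -((X - 1) * ∑ i ∈ range m, X ^ i) := by ring
  rw [h2, this]
  ring

theorem prod_eq (n k : ℕ) (h : Fin n → ℕ) :
    (∏ c, (1 - X ^ (k * h c) : Polynomial ℤ)) = (1 - X) ^ n * ∏ c, qi (k * h c) := by
  rw [prod_congr rfl (fun c _ => one_sub_pow_eq (k * h c)), prod_mul_distrib, prod_const,
    card_univ, Fintype.card_fin]

theorem one_sub_ne : (1 - X : Polynomial ℤ) ≠ 0 := by
  intro h
  have := congrArg (fun p => coeff p 0) h
  simp at this

theorem st_FIN (hC : ST_CNT) (hE : ST_ERR) (hL : ST_LOW) (hP : ST_PAL) : ST_FIN := by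
  intro n A K h w hn hh hK hA1 hA0 hs1 hs2
  rcases hn with hn | ⟨rfl, rfl, hS⟩
  · -- the main case
    have hmap : A.map (evalRingHom (1 : ℤ)) =
        (C (C (K : ℤ)) * ∏ c, (1 - X ^ h c) : R0).map (evalRingHom (1 : ℤ)) := by
      rw [hA1, Polynomial.map_mul, Polynomial.map_prod, map_C]
      congr 1
      · simp
      · apply prod_congr rfl
        intro c _
        simp
    obtain ⟨g, hg⟩ := exists_rem A _ hmap
    obtain ⟨Q, hQ⟩ := hE n g hn
    obtain ⟨k1, hk1⟩ := hC n h w (by omega) hh
    set S := ∑ c, h c with hSdef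
    refine ⟨max (max k1 1) (4 * n * (Q * (8 * n * (w + S)) ^ (n - 2) + 1)), ?_⟩
    intro k hk R hR
    have hkk1 : k1 ≤ k := le_trans (le_max_left _ _) (le_trans (le_max_left _ _) hk)
    have hk11 : 1 ≤ k := le_trans (le_max_right _ _) (le_trans (le_max_left _ _) hk)
    have hkbig : 4 * n * (Q * (8 * n * (w + S)) ^ (n - 2) + 1) ≤ k := le_trans (le_max_right _ _) hk
    obtain ⟨p1, p2⟩ := hP n k w S A R hs1 hs2 hR
    have hlow := hL n k A R hA0 hR
    -- the equation for the error
    have heq : (1 - X : Polynomial ℤ) ^ (n - 1) * (R - C (K : ℤ) * ∏ c, qi (k * h c)) =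
        g.eval (X ^ k) := by
      apply mul_left_cancel₀ one_sub_ne
      have e1 : A.eval ((X : Polynomial ℤ) ^ k) =
          C (K : ℤ) * ∏ c, (1 - X ^ (k * h c)) + (1 - X) * g.eval (X ^ k) := by
        rw [hg, eval_add, eval_mul, eval_mul, eval_C, eval_C, eval_prod]
        congr 2
        apply prod_congr rfl
        intro c _
        simp [← pow_mul]
      rw [hR, prod_eq] at e1
      have e2 : (1 - X : Polynomial ℤ) * (1 - X) ^ (n - 1) = (1 - X) ^ n := by
        rw [← pow_succ']
        congr 1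
        omega
      rw [← mul_assoc, e2, mul_sub, e1]
      ring
    have herr := fun N => hQ k N _ heq
    -- the estimate in the middle range
    have hmid : ∀ N : ℕ, k ≤ N → N + n ≤ w + k * S → 2 * N ≤ k * S + w → 0 ≤ R.coeff N := by
      intro N hkN hNn h2N
      have c1 := hk1 k N hkk1 hkN h2N
      have c2 := herr N
      rw [coeff_sub, coeff_C_mul] at c2
      set P := (∏ c, qi (k * h c)).coeff N with hPdef
      set m := k / (4 * n) with hmdef
      have hn0 : 0 < 4 * n := by omega
      have hm1 : Q * (8 * n * (w + S)) ^ (n - 2) + 1 ≤ m := by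
        rw [hmdef, Nat.le_div_iff_mul_le hn0, mul_comm]
        exact hkbig
      have hkm : k ≤ 8 * n * m := by
        have h1 := Nat.div_add_mod k (4 * n)
        rw [← hmdef] at h1
        have h2 := Nat.mod_lt k hn0
        have h3 : 4 * n ≤ 4 * n * m := Nat.le_mul_of_pos_right _ (by omega)
        have h4 : 8 * n * m = 4 * n * m + 4 * n * m := by ring
        rw [h4]
        omega
      have hNk : N + n ≤ 8 * n * (w + S) * m := by
        calc N + n ≤ w + k * S := hNn
          _ ≤ k * w + k * S := Nat.add_le_add_right (Nat.le_mul_of_pos_left _ (by omega)) _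
          _ = k * (w + S) := by ring
          _ ≤ 8 * n * m * (w + S) := Nat.mul_le_mul_right _ hkm
          _ = 8 * n * (w + S) * m := by ring
      have hbound : Q * (N + n) ^ (n - 2) ≤ m ^ (n - 1) := by
        calc Q * (N + n) ^ (n - 2) ≤ Q * (8 * n * (w + S) * m) ^ (n - 2) :=
              Nat.mul_le_mul_left _ (Nat.pow_le_pow_left hNk _)
          _ = Q * (8 * n * (w + S)) ^ (n - 2) * m ^ (n - 2) := by rw [mul_pow]; ring
          _ ≤ m * m ^ (n - 2) := Nat.mul_le_mul_right _ (by omega)
          _ = m ^ (n - 1) := by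
              rw [← pow_succ']
              congr 1
              omega
      have hboundZ : (Q : ℤ) * ((N : ℤ) + n) ^ (n - 2) ≤ ((m ^ (n - 1) : ℕ) : ℤ) := by
        exact_mod_cast hbound
      have hPpos : (0 : ℤ) ≤ P := le_trans (Int.natCast_nonneg _) c1
      have hKP : P ≤ (K : ℤ) * P := by
        have : (1 : ℤ) ≤ K := by exact_mod_cast hK
        nlinarith
      have c3 := neg_le_of_abs_le c2
      linarith
    intro N
    by_cases hN1 : w + k * S < N + n
    · rw [p1 N hN1]
    · have hN1' : N + n ≤ w + k * S := not_lt.mp hN1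
      by_cases hN2 : 2 * N ≤ w + k * S - n
      · by_cases hN3 : N < k
        · exact hlow N hN3
        · exact hmid N (not_lt.mp hN3) hN1' (by omega)
      · rw [p2 N hN1']
        by_cases hN3 : w + k * S - n - N < k
        · exact hlow _ hN3
        · exact hmid _ (not_lt.mp hN3) (by omega) (by omega)
  · -- one cell
    refine ⟨0, fun k _ R hR N => ?_⟩
    rw [hS] at hs1 hs2
    obtain ⟨p1, _⟩ := hP 1 k 0 1 A R hs1 hs2 hR
    by_cases hN : N < k
    · exact hL 1 k A R hA0 hR N hN
    · rw [p1 N (by omega)]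

end Pool.Agent.Helper58.HL
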