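import Pool.Agent.Helper7.HL.Stmts

/-!
# Rows LOW, ERR, PAL, FIN of the project HL
-/

namespace Pool.Agent.Helper58.HL

open Finset Polynomial
open Pool.Agent.Helper7.HL

/-- coefficients of the product with `1 - X` -/
theorem coeff_one_sub_X (S E : Polynomial ℤ) (h : (1 - X) * E = S) (N : ℕ) :
    S.coeff (N + 1) = E.coeff (N + 1) - E.coeff N := by
  rw [← h, sub_mul, one_mul, coeff_sub, coeff_X_mul]

theorem coeff_one_sub_X_zero (S E : Polynomial ℤ) (h : (1 - X) * E = S) :
    S.coeff 0 = E.coeff 0 := by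
  rw [← h, sub_mul, one_mul, coeff_sub]
  simp

theorem coeff_eq_sum (S E : Polynomial ℤ) (h : (1 - X) * E = S) (N : ℕ) :
    E.coeff N = ∑ m ∈ range (N + 1), S.coeff m := by
  induction N with
  | zero => simp [coeff_one_sub_X_zero S E h]
  | succ N ih =>
    rw [sum_range_succ, ← ih, coeff_one_sub_X S E h N]
    ring

theorem low_aux (k : ℕ) : ∀ (n : ℕ) (B R : Polynomial ℤ), (∀ N < k, 0 ≤ B.coeff N) →
    B = (1 - X) ^ n * R → ∀ N < k, 0 ≤ R.coeff N := by
  intro n
  induction n with
  | zero =>
    intro B R hB h N hN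
    rw [pow_zero, one_mul] at h
    rw [← h]
    exact hB N hN
  | succ n ih =>
    intro B R hB h N hN
    have h1 : ∀ N < k, 0 ≤ ((1 - X) * R).coeff N := by
      apply ih B ((1 - X) * R) hB
      rw [h, pow_succ]
      ring
    rw [coeff_eq_sum _ R rfl N]
    apply sum_nonneg
    intro m hm
    apply h1
    have := mem_range.mp hm
    omega

theorem coeff_eval (A : R0) (k D : ℕ) (hD : A.natDegree < D) (m : ℕ) :
    (A.eval ((X : Polynomial ℤ) ^ k)).coeff m =
      ∑ j ∈ range D, if k * j ≤ m then (A.coeff j).coeff (m - k * j) else 0 := by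
  rw [eval_eq_sum_range' hD, finsetSum_coeff]
  apply sum_congr rfl
  intro j _
  rw [← pow_mul, coeff_mul_X_pow']

theorem st_LOW : ST_LOW := by
  intro n k A R hA h N hN
  apply low_aux k n _ R _ h N hN
  intro N hN
  rw [coeff_eval A k (A.natDegree + 1) (Nat.lt_succ_self _) N]
  apply sum_nonneg
  intro j _
  split_ifs with hj
  · have hj0 : j = 0 := by
      by_contra hne
      have : k ≤ k * j := Nat.le_mul_of_pos_right k (Nat.pos_of_ne_zero hne)
      omega
    subst hj0
    simpa using hA N
  · exact le_refl 0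

end Pool.Agent.Helper58.HL
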