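import Pool.Agent.Helper58.HL.LOW

namespace Pool.Agent.Helper58.HL

open Finset Polynomial
open Pool.Agent.Helper7.HL

theorem natDegree_one_sub_X_pow (n : ℕ) :
    ((1 - X : Polynomial ℤ) ^ n).natDegree = n := by
  have h1 : (1 - X : Polynomial ℤ) = -(X - C 1) := by simp
  rw [natDegree_pow, h1, natDegree_neg, natDegree_X_sub_C, mul_one]

theorem one_sub_X_pow_ne_zero (n : ℕ) : ((1 - X : Polynomial ℤ) ^ n) ≠ 0 := by
  apply pow_ne_zero
  intro h
  have := congrArg (fun p => coeff p 0) h
  simp at this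

theorem reflect_one_sub_X_pow (n : ℕ) :
    reflect n ((1 - X : Polynomial ℤ) ^ n) = (-1) ^ n * (1 - X) ^ n := by
  induction n with
  | zero => simp
  | succ n ih =>
    rw [pow_succ, reflect_mul _ _ (le_of_eq (natDegree_one_sub_X_pow n))
      (F := n) (G := 1) (by
        have := natDegree_one_sub_X_pow 1
        rw [pow_one] at this
        exact le_of_eq this), ih]
    have h1 : reflect 1 (1 - X : Polynomial ℤ) = -(1 - X) := by
      ext m
      rw [coeff_reflect]
      rcases m with _ | _ | m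
      · rw [revAt_le (by norm_num)]
        simp [coeff_one, coeff_X]
      · rw [revAt_le (by norm_num)]
        simp [coeff_one, coeff_X]
      · rw [revAt_eq_self_of_lt (by omega)]
        simp [coeff_one, coeff_X]
    rw [h1]
    ring

theorem coeff_eval_top (k w S : ℕ) (A : R0)
    (h0 : ∀ i j : ℕ, w < i ∨ S < j → (A.coeff j).coeff i = 0) (m : ℕ)
    (hm : w + k * S < m) : (A.eval ((X : Polynomial ℤ) ^ k)).coeff m = 0 := by
  have hD : A.natDegree < S + 1 := by
    rw [Nat.lt_succ_iff, natDegree_le_iff_coeff_eq_zero]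
    intro j hj
    ext i
    rw [h0 i j (Or.inr hj), coeff_zero]
  rw [coeff_eval A k (S + 1) hD m]
  apply sum_eq_zero
  intro j hj
  split_ifs with h
  · apply h0
    left
    have h1 : k * j ≤ k * S := Nat.mul_le_mul_left k (by have := mem_range.mp hj; omega)
    omega
  · rfl

theorem coeff_eval_sym (n k w S : ℕ) (A : R0)
    (h0 : ∀ i j : ℕ, w < i ∨ S < j → (A.coeff j).coeff i = 0)
    (h1 : ∀ i j : ℕ, i ≤ w → j ≤ S →
      (A.coeff j).coeff i = (-1) ^ n * (A.coeff (S - j)).coeff (w - i)) (m : ℕ)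
    (hm : m ≤ w + k * S) : (A.eval ((X : Polynomial ℤ) ^ k)).coeff m =
      (-1) ^ n * (A.eval ((X : Polynomial ℤ) ^ k)).coeff (w + k * S - m) := by
  have hD : A.natDegree < S + 1 := by
    rw [Nat.lt_succ_iff, natDegree_le_iff_coeff_eq_zero]
    intro j hj
    ext i
    rw [h0 i j (Or.inr hj), coeff_zero]
  rw [coeff_eval A k (S + 1) hD m, coeff_eval A k (S + 1) hD (w + k * S - m), mul_sum,
    ← sum_range_reflect]
  apply sum_congr rfl
  intro j hj
  have hjS : j ≤ S := by have := mem_range.mp hj; omega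
  have e1 : S + 1 - 1 - j = S - j := by omega
  rw [e1]
  have e2 : k * (S - j) + k * j = k * S := by rw [← Nat.mul_add, Nat.sub_add_cancel hjS]
  by_cases ha : k * (S - j) ≤ m
  · by_cases hb : k * j ≤ w + k * S - m
    · rw [if_pos ha, if_pos hb, h1 _ _ (by omega) (by omega)]
      have e3 : S - (S - j) = j := by omega
      have e4 : w - (m - k * (S - j)) = w + k * S - m - k * j := by omega
      rw [e3, e4]
    · rw [if_pos ha, if_neg hb, mul_zero]
      apply h0
      left
      omega
  · by_cases hb : k * j ≤ w + k * S - m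
    · rw [if_neg ha, if_pos hb, h0 _ _ (Or.inl (by omega)), mul_zero]
    · rw [if_neg ha, if_neg hb, mul_zero]

theorem st_PAL : ST_PAL := by
  intro n k w S A R h0 h1 hR
  by_cases hz : R = 0
  · subst hz
    exact ⟨fun N _ => coeff_zero N, fun N _ => by rw [coeff_zero, coeff_zero]⟩
  have hne : (1 - X : Polynomial ℤ) ^ n ≠ 0 := one_sub_X_pow_ne_zero n
  have hdegB : (A.eval ((X : Polynomial ℤ) ^ k)).natDegree ≤ w + k * S := by
    rw [natDegree_le_iff_coeff_eq_zero]
    intro m hm
    exact coeff_eval_top k w S A h0 m hm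
  have hdeg : n + R.natDegree ≤ w + k * S := by
    rw [hR, natDegree_mul hne hz, natDegree_one_sub_X_pow] at hdegB
    exact hdegB
  have hrefl : reflect (w + k * S) (A.eval ((X : Polynomial ℤ) ^ k)) =
      (-1) ^ n * A.eval ((X : Polynomial ℤ) ^ k) := by
    ext m
    have hc : ((-1 : Polynomial ℤ) ^ n * A.eval ((X : Polynomial ℤ) ^ k)).coeff m =
        (-1) ^ n * (A.eval ((X : Polynomial ℤ) ^ k)).coeff m := by
      have : (-1 : Polynomial ℤ) ^ n = C ((-1) ^ n) := by simp
      rw [this, coeff_C_mul]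
    rw [hc, coeff_reflect]
    by_cases hm : m ≤ w + k * S
    · rw [revAt_le hm, coeff_eval_sym n k w S A h0 h1 m hm, ← mul_assoc, ← pow_add, ← two_mul,
        pow_mul, neg_one_sq, one_pow, one_mul]
    · have hm' : w + k * S < m := not_le.mp hm
      rw [coeff_eval_top k w S A h0 m hm', mul_zero, revAt_eq_self_of_lt hm',
        coeff_eval_top k w S A h0 m hm']
  have hG : n + (w + k * S - n) = w + k * S := by omega
  have hR2 : reflect (w + k * S - n) R = R := by
    have h2 : reflect (w + k * S) ((1 - X : Polynomial ℤ) ^ n * R) =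
        reflect n ((1 - X : Polynomial ℤ) ^ n) * reflect (w + k * S - n) R := by
      have h3 := reflect_mul ((1 - X : Polynomial ℤ) ^ n) R (F := n) (G := w + k * S - n)
        (le_of_eq (natDegree_one_sub_X_pow n)) (by omega)
      rw [hG] at h3
      exact h3
    rw [← hR, hrefl, reflect_one_sub_X_pow, hR] at h2
    have h4 : ((-1 : Polynomial ℤ) ^ n * (1 - X) ^ n) * R =
        ((-1 : Polynomial ℤ) ^ n * (1 - X) ^ n) * reflect (w + k * S - n) R := by
      rw [← h2]
      ring
    have h5 : ((-1 : Polynomial ℤ) ^ n * (1 - X) ^ n) ≠ 0 :=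
      mul_ne_zero (pow_ne_zero _ (by norm_num)) hne
    exact (mul_left_cancel₀ h5 h4).symm
  refine ⟨fun N hN => coeff_eq_zero_of_natDegree_lt (by omega), fun N hN => ?_⟩
  have h6 : R.coeff N = (reflect (w + k * S - n) R).coeff N := by rw [hR2]
  rw [h6, coeff_reflect, revAt_le (by omega)]

end Pool.Agent.Helper58.HL
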